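import Pool.Agent.Run7.h409.BT.FELL1

set_option autoImplicit false

open Set Filter Topology

namespace Pool.Agent.Run7.h409.BT

open Pool.Agent.W744.BU

theorem comm (hE : S_ENT) (hT : S_TENS) (hL : S_LAM) (G J : Type) [Group G]
    (ρ : G →* unitary (Op J)) (W : Op (J × G))
    (h1 : ∀ g j j', entry W (j, g) (j', g) = entry (ρ g : Op J) j j')
    (h2 : ∀ j j' g g', g ≠ g' → entry W (j, g) (j', g') = 0) (g : G) :
    W * tens 1 (lam g) = tens (ρ g : Op J) (lam g) * W := by
  classical
  obtain ⟨hext, -, hmul, -, hone⟩ := hE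
  obtain ⟨hlam, -⟩ := hL G
  apply hext
  rintro ⟨i, h⟩ ⟨j, h'⟩
  have hl : entry (W * tens 1 (lam g)) (i, h) (j, h') =
      entry W (i, h) (j, h) * entry (lam g) h h' := by
    refine (hmul _ W (tens 1 (lam g)) (i, h) (j, h')).unique ?_
    have hs := hasSum_single (f := fun k : J × G =>
      entry W (i, h) k * entry (tens (1 : Op J) (lam g)) k (j, h')) (j, h) ?_
    · have e1 : entry (tens (1 : Op J) (lam g)) (j, h) (j, h') = entry (lam g) h h' := by
        rw [(hT.1 J G 1 (lam g)).1 j h j h', hone, if_pos rfl, one_mul]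
      rwa [e1] at hs
    · rintro ⟨k1, k2⟩ hk
      by_cases hk2 : h = k2
      · subst hk2
        have hk1 : k1 ≠ j := fun e => hk (by rw [e])
        rw [(hT.1 J G 1 (lam g)).1 k1 h j h', hone, if_neg hk1, zero_mul, mul_zero]
      · rw [h2 i k1 h k2 hk2, zero_mul]
  have hr : entry (tens (ρ g : Op J) (lam g) * W) (i, h) (j, h') =
      entry ((ρ g : Op J) * (ρ h' : Op J)) i j * entry (lam g) h h' := by
    refine (hmul _ (tens (ρ g : Op J) (lam g)) W (i, h) (j, h')).unique ?_
    have hinj : Function.Injective (fun k1 : J => ((k1, h') : J × G)) := by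
      intro a b hab
      exact congrArg Prod.fst hab
    refine (hinj.hasSum_iff ?_).1 ?_
    · rintro ⟨k1, k2⟩ hk
      have hk2 : k2 ≠ h' := by
        rintro rfl
        exact hk ⟨k1, rfl⟩
      rw [h2 k1 j k2 h' hk2, mul_zero]
    · have hs := (hmul _ (ρ g : Op J) (ρ h' : Op J) i j).mul_right (entry (lam g) h h')
      have e : ((fun k : J × G => entry (tens (ρ g : Op J) (lam g)) (i, h) k * entry W k (j, h')) ∘
          (fun k1 : J => ((k1, h') : J × G))) =
          fun k1 => entry (ρ g : Op J) i k1 * entry (ρ h' : Op J) k1 j * entry (lam g) h h' := by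
        funext k1
        have e1 : entry (tens (ρ g : Op J) (lam g)) (i, h) (k1, h') =
          entry (ρ g : Op J) i k1 * entry (lam g) h h' := (hT.1 J G _ _).1 i h k1 h'
        have e2 : entry W (k1, h') (j, h') = entry (ρ h' : Op J) k1 j := h1 h' k1 j
        show entry (tens (ρ g : Op J) (lam g)) (i, h) (k1, h') * entry W (k1, h') (j, h') = _
        rw [e1, e2]
        ring
      rw [e]
      exact hs
  rw [hl, hr, hlam]
  by_cases hh : h = g * h'
  · subst hh
    rw [h1, map_mul]
    rfl
  · rw [if_neg hh, mul_zero, mul_zero]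

end Pool.Agent.Run7.h409.BT
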