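import Pool.Agent.Run7.h409.BT.FELL1

set_option autoImplicit false

open Set Filter Topology

namespace Pool.Agent.Run7.h409.BT

open Pool.Agent.W744.BU

theorem exW0 (hC : S_COMP) (G J P : Type) (σ : J × G ≃ P) (B : Op P) (hB : B ∈ unitary (Op P))
    (f : G → Op J) (h1 : ∀ g j j', entry B (σ (j, g)) (σ (j', g)) = entry (f g) j j')
    (h2 : ∀ j j' g g', g ≠ g' → entry B (σ (j, g)) (σ (j', g')) = 0) :
    ∃ W : Op (J × G), W ∈ unitary (Op (J × G)) ∧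
      (∀ g j j', entry W (j, g) (j', g) = entry (f g) j j') ∧
      ∀ j j' g g', g ≠ g' → entry W (j, g) (j', g') = 0 := by
  obtain ⟨Φ, hΦ⟩ := Pool.Agent.W433.BU.CO.reix hC (J × G) P σ
  refine ⟨Φ B, map_uni Φ B hB, fun g j j' => ?_, fun j j' g g' hg => ?_⟩
  · rw [hΦ, h1]
  · rw [hΦ, h2 j j' g g' hg]

theorem exB (hB : S_BLK) (G J : Type) (f : G → Op J) (hf : ∀ g, f g ∈ unitary (Op J)) :
    ∃ B : Op (Σ _ : G, J), B ∈ unitary (Op (Σ _ : G, J)) ∧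
      (∀ g j j', entry B ⟨g, j⟩ ⟨g, j'⟩ = entry (f g) j j') ∧
      ∀ p q : Σ _ : G, J, p.1 ≠ q.1 → entry B p q = 0 := by
  obtain ⟨h1, h2, h3⟩ := hB G (fun _ => J) f 1 (fun g => norm_uni _ (hf g))
  exact ⟨blk f, h3 hf, h1, h2⟩

theorem exW (hB : S_BLK) (hC : S_COMP) (G J : Type) (f : G → Op J)
    (hf : ∀ g, f g ∈ unitary (Op J)) :
    ∃ W : Op (J × G), W ∈ unitary (Op (J × G)) ∧
      (∀ g j j', entry W (j, g) (j', g) = entry (f g) j j') ∧
      ∀ j j' g g', g ≠ g' → entry W (j, g) (j', g') = 0 := by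
  obtain ⟨B, h0, h1, h2⟩ := exB hB G J f hf
  exact exW0 hC G J (Σ _ : G, J)
    { toFun := fun p => ⟨p.2, p.1⟩
      invFun := fun p => (p.2, p.1)
      left_inv := fun p => rfl
      right_inv := fun p => rfl } B h0 f (fun g j j' => h1 g j j')
      (fun j j' g g' hg => h2 ⟨g, j⟩ ⟨g', j'⟩ hg)

end Pool.Agent.Run7.h409.BT
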