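import Pool.Agent.Run7.h982.BT.Iface
import Pool.Agent.Run7.h409.BT.FELL2
import Pool.Agent.Run7.h409.BT.FELL3

/-!
Fell absorption (helper409, for project BT of helper982, MP_90d4f1_an Q2).
-/

set_option autoImplicit false

open Set Filter Topology

namespace Pool.Agent.Run7.h409.BT

open Pool.Agent.W744.BU

theorem uniT (hT : S_TENS) (I J : Type) (W : Op I) (hW : W ∈ unitary (Op I)) :
    tens W (1 : Op J) ∈ unitary (Op (I × J)) := by
  rw [Unitary.mem_iff]
  have hs : star (tens W (1 : Op J)) = tens (star W) (1 : Op J) := by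
    rw [← hT.2.2.1 I J W 1, star_one]
  constructor
  · rw [hs, ← hT.2.1 I J, (Unitary.mem_iff.1 hW).1, one_mul, hT.2.2.2.1]
  · rw [hs, ← hT.2.1 I J, (Unitary.mem_iff.1 hW).2, one_mul, hT.2.2.2.1]

theorem fell (hE : S_ENT) (hT : S_TENS) (hC : S_COMP) (hB : S_BLK) (hL : S_LAM)
    (G J : Type) [Group G] (ρ : G →* unitary (Op J)) :
    ∃ (ψ : Op G →⋆ₐ[ℂ] Op (J × G)) (F : Op (G × G) →⋆ₐ[ℂ] Op ((J × G) × G)),
      (∀ g, ψ (lam g) = tens (ρ g : Op J) (lam g)) ∧
      ∀ (a b : Op G) (c : Op (G × G)), IsTens a b c → IsTens (ψ a) b (F c) := by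
  classical
  obtain ⟨W, hW, h1, h2⟩ := exW hB hC G J (fun g => (ρ g : Op J)) (fun g => (ρ g).2)
  obtain ⟨Φ, hΦ⟩ := Pool.Agent.W433.BU.CO.reix hC ((J × G) × G) (J × (G × G))
    (Equiv.prodAssoc J G G)
  have hWW : W * star W = 1 := (Unitary.mem_iff.1 hW).2
  refine ⟨(conjU W hW).comp (tr hT J G), ((conjU (tens W 1) (uniT hT (J × G) G W hW)).comp Φ).comp
    (tr hT J (G × G)), fun g => ?_, fun a b c hc => ?_⟩
  · show W * tens 1 (lam g) * star W = _
    rw [comm hE hT hL G J ρ W h1 h2 g, mul_assoc, hWW, mul_one]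
  · have e0 : Φ (tens 1 c) = tens (tens 1 a) b := by
      apply hE.1
      rintro ⟨⟨i, j⟩, k⟩ ⟨⟨i', j'⟩, k'⟩
      rw [hΦ]
      have e1 : entry (tens (1 : Op J) c) (i, (j, k)) (i', (j', k')) =
        entry (1 : Op J) i i' * entry c (j, k) (j', k') := (hT.1 J (G × G) 1 c).1 i (j, k) i' (j', k')
      have e2 : entry (tens (tens (1 : Op J) a) b) ((i, j), k) ((i', j'), k') =
        entry (tens (1 : Op J) a) (i, j) (i', j') * entry b k k' :=
        (hT.1 (J × G) G _ b).1 (i, j) k (i', j') k'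
      have e3 : entry (tens (1 : Op J) a) (i, j) (i', j') = entry (1 : Op J) i i' * entry a j j' :=
        (hT.1 J G 1 a).1 i j i' j'
      have e4 : entry c (j, k) (j', k') = entry a j j' * entry b k k' := hc j k j' k'
      show entry (tens (1 : Op J) c) (i, (j, k)) (i', (j', k')) = _
      rw [e1, e2, e3, e4]
      ring
    have hs : star (tens W (1 : Op G)) = tens (star W) (1 : Op G) := by
      rw [← hT.2.2.1 (J × G) G W 1, star_one]
    have e5 : tens W (1 : Op G) * Φ (tens 1 c) * star (tens W (1 : Op G)) =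
        tens (W * tens 1 a * star W) b := by
      rw [e0, hs, ← hT.2.1, ← hT.2.1, one_mul, mul_one]
    show IsTens (W * tens 1 a * star W) b (tens W (1 : Op G) * Φ (tens 1 c) * star (tens W (1 : Op G)))
    rw [e5]
    exact (hT.1 (J × G) G _ b).1

/-- **FELL**. -/
theorem t_FELL : Pool.Agent.Run7.h982.BT.S_FELL := by
  intro G J _ ρ
  have E : S_ENT := Pool.Agent.W740.BU.ENT.main
  have T : S_TENS := Pool.Agent.W566.BU.TENS.main E
  have C : S_COMP := Pool.Agent.W238.BU.COMP.main E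
  have K : S_BLK := Pool.Agent.W639.BU.BLK.main E
  have D : S_DOP := Pool.Agent.W196.BU.DOP.main E T
  have L : S_LAM := Pool.Agent.W37.BU.LAM.main E T D
  exact fell E T C K L G J ρ

end Pool.Agent.Run7.h409.BT
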