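import Pool.Agent.W433.BU.CO
import Pool.Agent.W566.BU.TENS
import Pool.Agent.W740.BU.ENT
import Pool.Agent.W238.BU.COMP
import Pool.Agent.W639.BU.BLK
import Pool.Agent.W196.BU.DOP
import Pool.Agent.W37.BU.LAM

/-!
Fell absorption (helper409, for project BT of helper982, MP_90d4f1_an Q2).
-/

set_option autoImplicit false

open Set Filter Topology

namespace Pool.Agent.Run7.h409.BT

open Pool.Agent.W744.BU

/-- Conjugation by a unitary. -/
noncomputable def conjU {I : Type} (W : Op I) (hW : W ∈ unitary (Op I)) : Op I →⋆ₐ[ℂ] Op I where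
  toFun x := W * x * star W
  map_one' := by
    rw [mul_one]
    exact (Unitary.mem_iff.1 hW).2
  map_mul' x y := by
    have h : star W * W = 1 := (Unitary.mem_iff.1 hW).1
    calc W * (x * y) * star W = W * x * 1 * (y * star W) := by simp only [mul_assoc, one_mul]
      _ = W * x * (star W * W) * (y * star W) := by rw [h]
      _ = W * x * star W * (W * y * star W) := by simp only [mul_assoc]
  map_zero' := by rw [mul_zero, zero_mul]
  map_add' x y := by rw [mul_add, add_mul]
  commutes' z := by
    rw [Algebra.algebraMap_eq_smul_one, mul_smul_comm, smul_mul_assoc, mul_one]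
    rw [(Unitary.mem_iff.1 hW).2]
  map_star' x := by
    simp only [star_mul, star_star, mul_assoc]

/-- The star homomorphism `b ↦ 1 ⊗ b`. -/
noncomputable def tr (hT : S_TENS) (I J : Type) : Op J →⋆ₐ[ℂ] Op (I × J) where
  toFun b := tens 1 b
  map_one' := hT.2.2.2.1 I J
  map_mul' b b' := by
    have h := hT.2.1 I J 1 1 b b'
    rwa [one_mul] at h
  map_zero' := by
    have h := (hT.2.2.2.2.2.2.1 I J 0 1 0).2
    rwa [zero_smul, zero_smul] at h
  map_add' b b' := hT.2.2.2.2.2.1 I J 1 b b'
  commutes' z := by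
    rw [Algebra.algebraMap_eq_smul_one, Algebra.algebraMap_eq_smul_one]
    rw [(hT.2.2.2.2.2.2.1 I J z 1 1).2, hT.2.2.2.1 I J]
  map_star' b := by
    have h := hT.2.2.1 I J 1 b
    rwa [star_one] at h

theorem norm_gen {B : Type} [CStarAlgebra B] (u : B) (hu : u ∈ unitary B) : ‖u‖ ≤ 1 := by
  rcases subsingleton_or_nontrivial B with h | h
  · rw [Subsingleton.elim u 0, norm_zero]
    exact zero_le_one
  · exact (CStarRing.norm_of_mem_unitary hu).le

theorem norm_uni {I : Type} (u : Op I) (hu : u ∈ unitary (Op I)) : ‖u‖ ≤ 1 :=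
  norm_gen u hu

theorem map_uni {I J : Type} (Φ : Op I →⋆ₐ[ℂ] Op J) (u : Op I) (hu : u ∈ unitary (Op I)) :
    Φ u ∈ unitary (Op J) := by
  rw [Unitary.mem_iff]
  constructor
  · rw [← map_star, ← map_mul, (Unitary.mem_iff.1 hu).1, map_one]
  · rw [← map_star, ← map_mul, (Unitary.mem_iff.1 hu).2, map_one]

end Pool.Agent.Run7.h409.BT
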